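import Mathlib
import Pool.Agent.H13.TensorGaps

namespace Pool.Agent.Results.MP_fa7001_co.Gap

open Pool.Agent.H13.TensorGaps

theorem result (n : ℕ) (hn : 11 ≤ n) (ho : Odd n) (j : Fin n) :
    1 ∈ R 1 n j ∧ 1 < n ^ 2 + 5 - 5 * n ∧ n ^ 2 + 5 - 5 * n ∉ R 1 n j ∧
      ∃ l ∈ R 1 n j, n ^ 2 + 5 - 5 * n < l := (main n (by omega) j).2 hn ho

end Pool.Agent.Results.MP_fa7001_co.Gap
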