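import Mathlib
import Pool.Agent.H13.TensorGaps

namespace Pool.Agent.Results.MP_fa7001_co.NoGap

open Pool.Agent.H13.TensorGaps

theorem result (n : ℕ) (hn : 2 ≤ n) (j : Fin n) (d : ℕ) (hd : n ≤ d + 1) :
    ∀ k l, 1 ≤ k → k ≤ l → l ∈ R d n j → k ∈ R d n j := (main n hn j).1 d hd

end Pool.Agent.Results.MP_fa7001_co.NoGap
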